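import Pool.Agent.AT8.Stmts4
import Pool.Agent.Helper66_K9.Asm
import Pool.Agent.Helper23_AT3.RTC

/-!
# Squad AT8, row COH: the coherence theorem (assembly)
-/

open scoped BigOperators

noncomputable section

namespace Pool.Agent.PP.T8.H10

open Pool.Agent.Helper51_AWC Pool.Agent.Helper79_WRA Pool.Agent.PP Pool.Agent.PP.KF
open Pool.Agent.PP.K9 Pool.Agent.PP.K9.H97 Pool.Agent.PP.H75 Pool.Agent.PP.T3 Pool.Agent.PP.T2

attribute [local instance] Ideal.Quotient.field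

variable (M : Ideal (integralClosure ℤ ℂ)) [M.IsMaximal] {G : Type} [Group G] [Finite G]

/-- finite sums of functions of the class `Rv` -/
theorem rv_sum (rva : RvaStmt) (V : Subgroup G) (hab : ∀ a ∈ V, ∀ b ∈ V, a * b = b * a) {ι : Type}
    (s : Finset ι) (f : ι → G → ℂ) (h : ∀ i ∈ s, Rv M V (f i)) :
    Rv M V (fun x => ∑ i ∈ s, f i x) := by
  classical
  obtain ⟨h1, h2, -⟩ := rva M G V hab
  induction s using Finset.induction_on with
  | empty =>
    have h3 := h1 0 (RM M).zero_mem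
    simp only [Finset.sum_empty]
    exact h3
  | insert a s ha ih =>
    have h3 := (h2 (f a) (fun x => ∑ i ∈ s, f i x) (h a (Finset.mem_insert_self _ _))
      (ih fun i hi => h i (Finset.mem_insert_of_mem hi))).1
    simp only [Finset.sum_insert ha]
    exact h3

/-- conjugation in the normaliser is a bijection of `V` -/
theorem sum_conj (V : Subgroup G) {t : G} (ht : t ∈ Subgroup.normalizer (V : Set G)) (f : G → ℂ) :
    ∑ᶠ v : V, f (t * v * t⁻¹) = ∑ᶠ v : V, f v := by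
  have hm : ∀ v : V, t * v * t⁻¹ ∈ V := fun v => (Subgroup.mem_normalizer_iff.1 ht v).1 v.2
  have hm' : ∀ v : V, t⁻¹ * v * t ∈ V := fun v => by
    have := (Subgroup.mem_normalizer_iff.1 (inv_mem ht) v).1 v.2
    rwa [inv_inv] at this
  let σ : V ≃ V :=
    { toFun := fun v => ⟨t * v * t⁻¹, hm v⟩
      invFun := fun v => ⟨t⁻¹ * v * t, hm' v⟩
      left_inv := fun v => by
        apply Subtype.ext
        show t⁻¹ * (t * v * t⁻¹) * t = v
        group
      right_inv := fun v => by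
        apply Subtype.ext
        show t * (t⁻¹ * v * t) * t⁻¹ = v
        group }
  exact finsum_comp_equiv σ (f := fun v : V => f v)

/-- the power map is a bijection of `V` -/
theorem sum_pow (V : Subgroup G) {N : ℕ} (hN : N.Coprime (Nat.card G)) (f : G → ℂ) :
    ∑ᶠ v : V, f ((v : G) ^ N) = ∑ᶠ v : V, f v := by
  have hN' : N.Coprime (Nat.card V) := hN.coprime_dvd_right (Subgroup.card_subgroup_dvd_card V)
  have h1 := finsum_comp_equiv (powCoprime hN'.symm) (f := fun v : V => f v)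
  rw [← h1]
  refine finsum_congr fun v => ?_
  rw [powCoprime_apply, Subgroup.coe_pow]

/-- COH -/
theorem coh (cid : CidStmt) (csq : CsqStmt) (fch : FchStmt) (rva : RvaStmt) (geq : GeqStmt)
    (ser : SerStmt) (dpw : DpwStmt) : CohStmt := by
  classical
  intro ℓ hℓ M _ hlM hℓ2 G _ _ N gs e V γ b d c ε D χ hχ
  have hab := D.ld.ab
  obtain ⟨rconst, rring, rcard, rval, rconj, rcongr⟩ := rva M G V hab
  by_cases hreg : ∃ u₀, Rg V γ u₀
  swap
  · refine ⟨fun _ => 0, rconst 0 (RM M).zero_mem, fun u hu => absurd ⟨u, hu⟩ hreg,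
      fun _ _ _ => rfl⟩
  obtain ⟨u₀, hu₀⟩ := hreg
  obtain ⟨i, hi⟩ := cid ℓ M hlM G e V γ D.ld
  obtain ⟨R, hR⟩ := csq ℓ M hlM hℓ2 G e V γ b d c ε D i hi
  obtain ⟨κ, hκ, hκ1, -⟩ := H50.exists_irr_blk D.ld.gam.blk
  have hκE : κ ∈ IrrE M (fun t : Subgroup.centralizer (V : Set G) => γ t) := ⟨hκ, hκ1⟩
  have hnz := hi.nz κ hκE
  set ρ := rr M (∑ᶠ t : Subgroup.centralizer (V : Set G), i t * κ t) with hρ
  have := Fintype.ofFinite G
  have := Fintype.ofFinite (Tg V γ ⧸ (Subgroup.centralizer (V : Set G)).subgroupOf (Tg V γ))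
  have hfin : (Irr G).Finite := Set.toFinite _
  -- the inertial index
  have hix : ¬ ℓ ∣ ix V γ := H34.inx ℓ M hlM G e D.ld.blk V D.ld.tp hab γ D.ld.gam.supp
    D.ld.gam.blk D.ld.und
  have hixF : (ix V γ : FF M) ≠ 0 := by
    intro h
    apply hix
    have h1 := (dvd_of_rr (M := M) hℓ.out hlM (n := (ix V γ : ℤ))).1 (by
      rw [(rr_int (M := M) _).2]
      exact_mod_cast h)
    exact_mod_cast h1
  have hix0 : (ix V γ : ℂ) ≠ 0 := by
    intro h
    apply hix
    have h1 : ix V γ = 0 := by exact_mod_cast h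
    rw [h1]
    exact dvd_zero _
  have hTN : ∀ q : Tg V γ, (q : G) ∈ Subgroup.normalizer (V : Set G) := fun q => q.2.1
  -- the functions `fs`
  have hfv : ∀ ψ ∈ Irr G, Rv M V (fun z => fv i z ψ) := by
    intro ψ hψ lam
    obtain ⟨m, hm⟩ := fch M G V hab i hi.ip ψ hψ lam
    rw [hm]
    exact (rr_nat (M := M) m).1
  have hfseq : ∀ ψ : G → ℂ, ∀ z, fs V γ i z ψ =
      ∑ q : Tg V γ ⧸ (Subgroup.centralizer (V : Set G)).subgroupOf (Tg V γ),
        fv i ((q.out : G) * z * (q.out : G)⁻¹) ψ := fun ψ z => by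
    unfold fs
    rw [finsum_eq_sum_of_fintype]
  have hfs : ∀ ψ ∈ Irr G, Rv M V (fun z => fs V γ i z ψ) := by
    intro ψ hψ
    have h1 := rv_sum M rva V hab Finset.univ
      (fun (q : Tg V γ ⧸ (Subgroup.centralizer (V : Set G)).subgroupOf (Tg V γ)) z =>
        fv i ((q.out : G) * z * (q.out : G)⁻¹) ψ)
      (fun q _ => rconj _ (hfv ψ hψ) _ (hTN q.out))
    have h2 : (fun z => fs V γ i z ψ) = fun z =>
        ∑ q : Tg V γ ⧸ (Subgroup.centralizer (V : Set G)).subgroupOf (Tg V γ),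
          fv i ((q.out : G) * z * (q.out : G)⁻¹) ψ := funext fun z => hfseq ψ z
    rw [h2]
    exact h1
  -- the mean values
  have hmean : ∀ ψ ∈ Irr G, ((Nat.card V : ℂ)⁻¹ * ∑ᶠ v : V, fs V γ i v ψ) ∈ RM M := by
    intro ψ hψ
    obtain ⟨m, hm⟩ := fch M G V hab i hi.ip ψ hψ 1
    have h1 : ∑ᶠ v : V, fs V γ i v ψ =
        ∑ q : Tg V γ ⧸ (Subgroup.centralizer (V : Set G)).subgroupOf (Tg V γ),
          ∑ᶠ v : V, fv i v ψ := by
      have := Fintype.ofFinite V
      rw [finsum_eq_sum_of_fintype]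
      simp_rw [hfseq]
      rw [Finset.sum_comm]
      refine Finset.sum_congr rfl fun q _ => ?_
      rw [← sum_conj V (hTN q.out) (fun z => fv i z ψ), finsum_eq_sum_of_fintype]
    have h2 : ∑ᶠ v : V, fv i v ψ * (1 : V →* ℂ) v⁻¹ = ∑ᶠ v : V, fv i v ψ :=
      finsum_congr fun v => by rw [MonoidHom.one_apply, mul_one]
    rw [h2] at hm
    rw [h1, Finset.sum_const, nsmul_eq_mul, mul_left_comm, hm]
    exact (RM M).mul_mem (rr_nat (M := M) _).1 (rr_nat (M := M) _).1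
  have hcceq : ∀ z, cc V γ i z = ∑ ψ ∈ hfin.toFinset,
      ((Nat.card V : ℂ)⁻¹ * ∑ᶠ v : V, fs V γ i v ψ) * fs V γ i z ψ := by
    intro z
    unfold cc
    rw [finsum_mem_eq_finite_toFinset_sum _ hfin]
  have hcc : Rv M V (fun z => cc V γ i z) := by
    have h2 : (fun z => cc V γ i z) = fun z => ∑ ψ ∈ hfin.toFinset,
        ((Nat.card V : ℂ)⁻¹ * ∑ᶠ v : V, fs V γ i v ψ) * fs V γ i z ψ := funext hcceq
    rw [h2]
    refine rv_sum M rva V hab _ _ fun ψ hψ => ?_
    have hψ' := hfin.mem_toFinset.1 hψ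
    exact (rring _ _ (rconst _ (hmean ψ hψ')) (hfs ψ hψ')).2
  set g : G → ℂ := fun z => (ix V γ : ℂ)⁻¹ * cc V γ i z with hg
  have hgR : Rv M V g := (rring _ _ (rconst _ (inv_nat_RM hℓ.out hlM hix)) hcc).2
  -- the integers `R'`
  have hε : ∀ u, Rg V γ u → ε u * ε u = 1 := fun u hu => by
    rcases D.sg u hu with h | h <;> rw [h] <;> norm_num
  set R' : G → ℤ := fun u => ε u * R u with hR'
  have hRρ : ∀ u, Rg V γ u → rr M ((R' u : ℤ) : ℂ) = ix V γ * ρ := by
    intro u hu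
    rw [(rr_int (M := M) _).2, ← (hR u hu).2.1 κ hκE]
    rw [hR', mul_comm]
  have hn : ¬ (ℓ : ℤ) ∣ R' u₀ := by
    intro h
    have h1 := (dvd_of_rr (M := M) hℓ.out hlM (n := R' u₀)).2 h
    rw [hRρ u₀ hu₀] at h1
    exact mul_ne_zero hixF hnz h1
  have hX : ∀ y ∈ {u | Rg V γ u}, y ∈ V ∧ g y = (R' y : ℂ) ^ 2 ∧ (ℓ : ℤ) ∣ R' y - R' u₀ := by
    intro y hy
    have hy' : Rg V γ y := hy
    refine ⟨hy'.1, ?_, ?_⟩
    · have h1 := hε y hy'
      have h2 : (ε y : ℂ) * (ε y : ℂ) = 1 := by exact_mod_cast h1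
      rw [hg, hR']
      show (ix V γ : ℂ)⁻¹ * cc V γ i y = ((ε y * R y : ℤ) : ℂ) ^ 2
      rw [(hR y hy').2.2, inv_mul_cancel_left₀ hix0]
      push_cast
      rw [mul_pow, pow_two (ε y : ℂ), h2, one_mul]
    · refine (dvd_of_rr (M := M) hℓ.out hlM).1 ?_
      push_cast
      rw [rr_sub (M := M) (rr_int (M := M) _).1 (rr_int (M := M) _).1, hRρ y hy', hRρ u₀ hu₀,
        sub_self]
  obtain ⟨s, hsR, hs1, hs2⟩ := ser ℓ M hlM hℓ2 G V D.ld.tp.pg hab g hgR {u | Rg V γ u} R' (R' u₀)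
    hn hX
  refine ⟨fun z => fs V γ i z χ * s z, (rring _ _ (hfs χ hχ) hsR).2, fun u hu => ?_, ?_⟩
  · have h1 := hs1 u hu
    have h2 : (ε u : ℂ) * (ε u : ℂ) = 1 := by exact_mod_cast hε u hu
    have h3 : s u * R u = ε u := by
      have h4 : s u * ((ε u : ℂ) * R u) = 1 := by
        rw [← h1, hR']
        push_cast
        rfl
      calc s u * R u = ((ε u : ℂ) * ε u) * (s u * R u) := by rw [h2, one_mul]
        _ = ε u * (s u * ((ε u : ℂ) * R u)) := by ring
        _ = ε u := by rw [h4, mul_one]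
    show fs V γ i u χ * s u = _
    rw [(hR u hu).1 χ hχ, ← h3]
    ring
  -- the power map
  · intro hχN v hv
    have hpw : ∀ ψ ∈ Irr G, ∀ z ∈ V, fs V γ i (z ^ N) ψ = fs V γ i z (fun g => ψ (g ^ N)) := by
      intro ψ hψ z hz
      rw [hfseq, hfseq]
      refine Finset.sum_congr rfl fun q _ => ?_
      have h1 : (q.out : G) * z ^ N * (q.out : G)⁻¹ = ((q.out : G) * z * (q.out : G)⁻¹) ^ N :=
        conj_pow.symm
      rw [h1]
      exact geq ℓ M hlM G N gs V D.ld.tp.pg hab i hi.ip ψ hψ _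
        ((Subgroup.mem_normalizer_iff.1 (hTN q.out) z).1 hz)
    have hchi : (fun g => χ (g ^ N)) = χ := funext hχN
    have hgN : ∀ v ∈ V, g (v ^ N) = g v := by
      intro v hv
      rw [hg]
      show (ix V γ : ℂ)⁻¹ * cc V γ i (v ^ N) = (ix V γ : ℂ)⁻¹ * cc V γ i v
      rw [hcceq, hcceq]
      congr 1
      have hinj : Set.InjOn (fun (ψ : G → ℂ) (g : G) => ψ (g ^ N)) (Irr G) := by
        intro ψ₁ _ ψ₂ _ h
        funext x
        obtain ⟨y, hy⟩ := (H23.pow_bij gs.cop).2 x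
        have h1 := congrFun h y
        have hy' : y ^ N = x := hy
        simp only [hy'] at h1
        exact h1
      have hmaps : ∀ ψ ∈ hfin.toFinset, (fun g : G => ψ (g ^ N)) ∈ hfin.toFinset := fun ψ hψ =>
        hfin.mem_toFinset.2 (H23.irr_pow ada_ gs.cop (hfin.mem_toFinset.1 hψ))
      have himg : hfin.toFinset.image (fun (ψ : G → ℂ) (g : G) => ψ (g ^ N)) = hfin.toFinset := by
        refine Finset.eq_of_subset_of_card_le ?_ ?_
        · intro ψ hψ
          obtain ⟨ψ', h1, h2⟩ := Finset.mem_image.1 hψ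
          rw [← h2]
          exact hmaps ψ' h1
        · rw [Finset.card_image_of_injOn]
          intro a ha b hb h
          exact hinj (hfin.mem_toFinset.1 ha) (hfin.mem_toFinset.1 hb) h
      have h3 : ∑ ψ ∈ hfin.toFinset, ((Nat.card V : ℂ)⁻¹ * ∑ᶠ w : V, fs V γ i w ψ) *
          fs V γ i v ψ = ∑ ψ ∈ hfin.toFinset, ((Nat.card V : ℂ)⁻¹ * ∑ᶠ w : V,
            fs V γ i w (fun g => ψ (g ^ N))) * fs V γ i v (fun g => ψ (g ^ N)) := by
        conv_lhs => rw [← himg]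
        rw [Finset.sum_image]
        intro a ha b hb h
        exact hinj (hfin.mem_toFinset.1 ha) (hfin.mem_toFinset.1 hb) h
      rw [h3]
      refine Finset.sum_congr rfl fun ψ hψ => ?_
      have hψ' := hfin.mem_toFinset.1 hψ
      rw [hpw ψ hψ' v hv]
      have h4 : ∑ᶠ w : V, fs V γ i w (fun g => ψ (g ^ N)) = ∑ᶠ w : V, fs V γ i w ψ := by
        rw [← sum_pow V gs.cop (fun z => fs V γ i z ψ)]
        exact finsum_congr fun w => (hpw ψ hψ' w w.2).symm
      rw [h4]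
    have hlN : ¬ ℓ ∣ N := by
      intro h
      have h1 : ℓ ∣ Nat.card V := by
        have h2 : Nat.card V ≠ 1 := by
          intro h2
          have h3 := Subgroup.eq_bot_of_card_eq V h2
          rw [h3] at hu₀
          exact hu₀.2.1 (Subgroup.mem_bot.1 hu₀.1)
        obtain ⟨n, hn⟩ := IsPGroup.iff_card.1 D.ld.tp.pg
        rw [hn] at h2 ⊢
        have h3 : n ≠ 0 := fun h => h2 (by rw [h, pow_zero])
        exact dvd_pow_self ℓ h3
      have h2 := gs.cop
      have h3 := Nat.dvd_gcd h (h1.trans (Subgroup.card_subgroup_dvd_card V))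
      rw [h2] at h3
      exact hℓ.out.one_lt.ne' (Nat.dvd_one.1 h3)
    have hXN : ∀ v ∈ V, v ^ N ∈ {u | Rg V γ u} ↔ v ∈ {u | Rg V γ u} := fun v hv =>
      (dpw ℓ M hlM hℓ2 G e V γ b d c ε D).2.2 v hv N hlN
    show fs V γ i (v ^ N) χ * s (v ^ N) = fs V γ i v χ * s v
    rw [hs2 N hgN hXN v hv, hpw χ hχ v hv, hchi]

end Pool.Agent.PP.T8.H10
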