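import Pool.Agent.AT8.Stmts4

/-! Squad AT8, row RTR (helper10): regular elements of `V` from the abstract rows. -/

open scoped BigOperators

noncomputable section

namespace Pool.Agent.PP.T8.H10

open Pool.Agent.Helper51_AWC Pool.Agent.Helper79_WRA Pool.Agent.PP Pool.Agent.PP.KF
open Pool.Agent.PP.K9 Pool.Agent.PP.K9.H97 Pool.Agent.PP.H75 Pool.Agent.PP.T3 Pool.Agent.PP.T2
open Pool.Agent.PP.T8

/-- the averaging argument -/
theorem fixed (ℓ : ℕ) [hℓ : Fact ℓ.Prime] (V : Type) [CommGroup V] [Finite V] (a : ℕ) (ha : 0 < a)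
    (hexp : Monoid.exponent V = ℓ ^ a) (y : V) (hy : orderOf y = ℓ ^ a) (φ : MulAut V) (m : ℕ)
    (hm : ¬ ℓ ∣ m) (hφ : φ ^ m = 1) (v : V) (hv : φ y = y * v ^ ℓ) :
    ∃ y' : V, y' ≠ 1 ∧ φ y' = y' := by
  have hp : ∀ i : ℕ, ∃ w : V, (φ ^ i) y = y * w ^ ℓ := by
    intro i
    induction i with
    | zero => exact ⟨1, by simp⟩
    | succ i ih =>
      obtain ⟨w, hw⟩ := ih
      refine ⟨v * φ w, ?_⟩
      rw [pow_succ', MulAut.mul_apply, hw, map_mul, map_pow, hv, mul_pow, mul_assoc]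
  choose w hw using hp
  have hmp : 0 < m := Nat.pos_of_ne_zero fun h => hm (h ▸ dvd_zero ℓ)
  refine ⟨∏ i ∈ Finset.range m, (φ ^ i) y, ?_, ?_⟩
  · intro h1
    have h2 : y ^ m * (∏ i ∈ Finset.range m, w i) ^ ℓ = 1 := by
      rw [← h1, Finset.prod_congr rfl fun i _ => hw i, Finset.prod_mul_distrib, Finset.prod_const,
        Finset.card_range, Finset.prod_pow]
    have h3 : y ^ m = ((∏ i ∈ Finset.range m, w i)⁻¹) ^ ℓ := by
      rw [inv_pow]
      exact eq_inv_of_mul_eq_one_left h2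
    have hcop : m.Coprime (orderOf y) := by
      rw [hy]
      exact Nat.Coprime.pow_right a ((Nat.Prime.coprime_iff_not_dvd hℓ.out).2 hm).symm
    obtain ⟨k, hk⟩ := exists_pow_eq_self_of_coprime hcop
    have h4 : y = (((∏ i ∈ Finset.range m, w i)⁻¹) ^ k) ^ ℓ := by
      rw [← hk, h3, ← pow_mul, ← pow_mul, mul_comm ℓ k]
    have h5 : y ^ ℓ ^ (a - 1) = 1 := by
      rw [h4, ← pow_mul]
      have h6 : ℓ * ℓ ^ (a - 1) = Monoid.exponent V := by
        rw [hexp, ← pow_succ', Nat.sub_add_cancel ha]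
      rw [h6]
      exact Monoid.pow_exponent_eq_one _
    have h7 := orderOf_dvd_of_pow_eq_one h5
    rw [hy] at h7
    have h8 := (Nat.pow_dvd_pow_iff_le_right hℓ.out.one_lt).1 h7
    omega
  · rw [map_prod]
    have h1 : ∀ i, φ ((φ ^ i) y) = (φ ^ (i + 1)) y := fun i => by
      rw [pow_succ', MulAut.mul_apply]
    simp only [h1]
    obtain ⟨m', rfl⟩ : ∃ m', m = m' + 1 := ⟨m - 1, by omega⟩
    rw [Finset.prod_range_succ, Finset.prod_range_succ' (fun i => (φ ^ i) y), hφ]
    simp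

theorem rtr (hA : RgaStmt) (hS : RgsStmt) (hB : RgbStmt) : RtrStmt := by
  intro ℓ hℓ F _ hF G _ _ e V γ hL hix a hexp
  have hab : ∀ a b : V, a * b = b * a := fun a b => Subtype.ext (hL.ab a a.2 b b.2)
  letI : CommGroup V := { (inferInstance : Group V) with mul_comm := hab }
  have hTN : Tg V γ ≤ Subgroup.normalizer (V : Set G) := inf_le_left
  let f : Tg V γ →* MulAut V := (V.normalizerMonoidHom).comp (Subgroup.inclusion hTN)
  have hfv : ∀ (t : Tg V γ) (v : V), ((f t v : V) : G) = t * v * (t : G)⁻¹ := fun t v => rfl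
  have hker : ∀ t : Tg V γ, f t = 1 ↔ (t : G) ∈ Subgroup.centralizer (V : Set G) := by
    intro t
    constructor
    · intro h
      rw [Subgroup.mem_centralizer_iff]
      intro v hv
      have h1 : f t ⟨v, hv⟩ = ⟨v, hv⟩ := by rw [h]; rfl
      have h2 := congrArg (fun z : V => (z : G)) h1
      have h3 : (t : G) * v * (t : G)⁻¹ = v := (hfv t ⟨v, hv⟩).symm.trans h2
      calc v * (t : G) = ((t : G) * v * (t : G)⁻¹) * t := by rw [h3]
        _ = t * v := by group
    · intro h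
      ext v
      rw [hfv]
      have h1 := (Subgroup.mem_centralizer_iff.1 h) v v.2
      change (t : G) * v * (t : G)⁻¹ = v
      rw [← h1]
      group
  have hkk : f.ker = (Subgroup.centralizer (V : Set G)).subgroupOf (Tg V γ) := by
    ext t
    rw [MonoidHom.mem_ker, hker, Subgroup.mem_subgroupOf]
  have hcard : Nat.card f.range = ix V γ := by
    rw [← Subgroup.index_ker, hkk]
    rfl
  have hreg : ∀ (k : ℕ) (y : V), orderOf y = ℓ ^ a →
      (∀ s ∈ f.range, ∀ v : V, s y = y * v ^ ℓ ^ k → s = 1) → Rk ℓ a k V γ (y : G) := by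
    intro k y hy h
    refine ⟨y.2, ?_, ?_⟩
    · rw [Subgroup.orderOf_coe]
      exact hy
    · intro t ht v hv htv
      refine (hker ⟨t, ht⟩).1 (h _ ⟨⟨t, ht⟩, rfl⟩ ⟨v, hv⟩ ?_)
      exact Subtype.ext htv
  refine ⟨?_, ?_⟩
  · intro ha hE
    rcases hE with hE | hE | hE
    · obtain ⟨y, hy, h⟩ := hA ℓ V a ha hexp f.range (by rw [hcard]; exact hix) (by
        rintro s ⟨s', rfl⟩ t ⟨t', rfl⟩
        have h1 := (hker (s' * t' * s'⁻¹ * t'⁻¹)).2 (hE s' s'.2 t' t'.2)
        rw [map_mul, map_mul, map_mul, map_inv, map_inv] at h1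
        calc f s' * f t' = (f s' * f t' * (f s')⁻¹ * (f t')⁻¹) * (f t' * f s') := by group
          _ = f t' * f s' := by rw [h1, one_mul])
      exact ⟨y, hreg 1 y hy (by simpa only [pow_one] using h)⟩
    · obtain ⟨y, hy, h⟩ := hS ℓ V a ha hexp f.range (by rw [hcard]; exact hE)
      exact ⟨y, hreg 1 y hy (by simpa only [pow_one] using h)⟩
    · obtain ⟨y, hy, -⟩ := hA ℓ V a ha hexp ⊥ (by
        rw [Nat.card_eq_one_iff_unique.2 ⟨inferInstance, inferInstance⟩]
        exact fun h => hℓ.out.one_lt.ne' (Nat.dvd_one.1 h)) (by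
        intro s hs t ht
        rw [Subgroup.mem_bot.1 hs, Subgroup.mem_bot.1 ht])
      refine ⟨y, hreg 1 y hy ?_⟩
      rintro s ⟨t, rfl⟩ v hv
      rw [pow_one] at hv
      have hm : (f t) ^ (ix V γ) = 1 := by
        have h1 := Subgroup.pow_mem f.range (⟨t, rfl⟩ : f t ∈ f.range) 1
        have h2 : (⟨f t, ⟨t, rfl⟩⟩ : f.range) ^ Nat.card f.range = 1 := pow_card_eq_one'
        have h3 := congrArg (fun z : f.range => (z : MulAut V)) h2
        rw [hcard] at h3
        exact h3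
      obtain ⟨y', hy1, hy2⟩ := fixed ℓ V a ha hexp y hy (f t) (ix V γ) hix hm v hv
      rw [hker]
      refine hE t t.2 y' y'.2 (fun h => hy1 (Subtype.ext h)) ?_
      have h1 : (t : G) * y' * (t : G)⁻¹ = y' := by
        rw [← hfv, hy2]
      calc (t : G) * y' = ((t : G) * y' * (t : G)⁻¹) * t := by group
        _ = y' * t := by rw [h1]
  · rintro ha ⟨x, z, hxz⟩
    have hx : x ∈ V := by
      rw [hxz]; exact Subgroup.subset_closure (Set.mem_insert _ _)
    have hz : z ∈ V := by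
      rw [hxz]; exact Subgroup.subset_closure (Set.mem_insert_of_mem _ rfl)
    obtain ⟨y, hy, h⟩ := hB ℓ V a ha hexp ⟨⟨x, hx⟩, ⟨z, hz⟩, by
      apply Subgroup.map_injective V.subtype_injective
      rw [← MonoidHom.range_eq_map, Subgroup.range_subtype, MonoidHom.map_closure, Set.image_pair]
      exact hxz⟩ f.range (by rw [hcard]; exact hix)
    exact ⟨y, hreg 2 y hy h⟩

end Pool.Agent.PP.T8.H10
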